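import Pool.Agent.Q216.DG.Main

set_option autoImplicit false

namespace Pool.Agent.Results.MP_57c4e5_pr.OptimalOrder

open Pool.Agent.Q216.DG

/-- **Delocalisation of the long-range discrete Gaussian chain at every temperature, with the
order of the real-valued chain.**  For every `α ∈ (2,3)` there is a constant `c > 0` depending on
`α` only such that for every `β > 0` the variance of the height at the origin is at least
`c β⁻¹ n^(α-2)` for all large `n`; moreover for every `β > 0` a bound `c' n^(α-2)` with `c' > 0`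
holds for all `n`. -/
theorem result (α : ℝ) (hα : 2 < α) (hα3 : α < 3) :
    (∃ c : ℝ, 0 < c ∧ ∀ β : ℝ, 0 < β → ∃ n0 : ℕ, ∀ n : ℕ, n0 ≤ n →
      c * β⁻¹ * (n : ℝ) ^ (α - 2) ≤ Vr α β n) ∧
    (∀ β : ℝ, 0 < β → ∃ c' : ℝ, 0 < c' ∧ ∀ n : ℕ, c' * (n : ℝ) ^ (α - 2) ≤ Vr α β n) :=
  ⟨lower_beta hα hα3, fun _ hβ => lower_all hα hα3 hβ⟩

end Pool.Agent.Results.MP_57c4e5_pr.OptimalOrder
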